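import Mathlib.Tactic.SuppressCompilation
import Mathlib.Data.Fintype.Perm
import Mathlib.Topology.Sheaves.Presheaf
import Mathlib.Tactic.Monotonicity.Lemmas
import Mathlib.Data.Int.Star
import Mathlib.Algebra.Order.Ring.Star
import Mathlib.Analysis.Normed.Order.Lattice
import Mathlib.Analysis.Normed.Field.Basic
import Mathlib.Analysis.Normed.Ring.Lemmas
import Mathlib.Tactic.Bound
import Mathlib.Analysis.Normed.Group.AddTorsor
import Mathlib.Algebra.Order.Star.Real
import Mathlib.Algebra.Ring.IsFormallyReal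
import Mathlib.LinearAlgebra.AffineSpace.FiniteDimensional
import Mathlib.Data.List.Triplewise
import Mathlib.Analysis.Convex.Independent
import Mathlib.Combinatorics.SimpleGraph.Basic
import Mathlib.Data.List.Lookmap
import Mathlib.RingTheory.PiTensorProduct
import Mathlib.Tactic.Algebra.Basic

-- ======== part 0: formerly Pool.Agent.MP_31ecd0_co.up.Count
section MrgPart0

/-! Convex quadrilaterals are bounded by the sum of the squared side differences of all lines. -/

namespace CrUp

open Finset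

abbrev P := ℝ × ℝ

def det (x y : P) : ℝ := x.1 * y.2 - x.2 * y.1

/-- The sign of a real number. -/
noncomputable def sg (r : ℝ) : ℤ := if 0 < r then 1 else if r < 0 then -1 else 0

/-- The orientation of a triple of points. -/
noncomputable def o (a b c : P) : ℤ := sg (det (b - a) (c - a))

/-- No three points on a line. -/
def GP (S : Finset P) : Prop :=
  ∀ a ∈ S, ∀ b ∈ S, ∀ c ∈ S, a ≠ b → a ≠ c → b ≠ c → det (b - a) (c - a) ≠ 0

open Classical in
/-- Number of 4-point subsets in convex position. -/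
noncomputable def conv (S : Finset P) : ℕ :=
  ((S.powersetCard 4).filter fun Q : Finset P => ConvexIndependent ℝ ((↑) : Q → P)).card

lemma sg_pos {r : ℝ} (h : 0 < r) : sg r = 1 := if_pos h
lemma sg_neg' {r : ℝ} (h : r < 0) : sg r = -1 := by
  rw [sg, if_neg h.le.not_gt, if_pos h]
@[simp] lemma sg_zero : sg 0 = 0 := by simp [sg]

lemma sg_cases (r : ℝ) : (0 < r ∧ sg r = 1) ∨ (r = 0 ∧ sg r = 0) ∨ (r < 0 ∧ sg r = -1) := by
  rcases lt_trichotomy 0 r with h | h | h
  · exact Or.inl ⟨h, sg_pos h⟩
  · exact Or.inr (Or.inl ⟨h.symm, h ▸ sg_zero⟩)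
  · exact Or.inr (Or.inr ⟨h, sg_neg' h⟩)

lemma sg_neg (r : ℝ) : sg (-r) = - sg r := by
  rcases sg_cases r with ⟨h, e⟩ | ⟨h, e⟩ | ⟨h, e⟩
  · rw [e, sg_neg' (by linarith)]
  · simp [h]
  · rw [e, sg_pos (by linarith)]; rfl

lemma sg_mul (r s : ℝ) : sg (r * s) = sg r * sg s := by
  rcases sg_cases r with ⟨h, e⟩ | ⟨h, e⟩ | ⟨h, e⟩ <;>
    rcases sg_cases s with ⟨h', e'⟩ | ⟨h', e'⟩ | ⟨h', e'⟩ <;> rw [e, e']
  · exact sg_pos (mul_pos h h')
  · simp [h']
  · exact sg_neg' (mul_neg_of_pos_of_neg h h')
  · simp [h]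
  · simp [h]
  · simp [h]
  · exact sg_neg' (mul_neg_of_neg_of_pos h h')
  · simp [h']
  · exact sg_pos (mul_pos_of_neg_of_neg h h')

lemma sg_abs_le (r : ℝ) : |sg r| ≤ 1 := by
  rcases sg_cases r with ⟨-, e⟩ | ⟨-, e⟩ | ⟨-, e⟩ <;> simp [e]

lemma sg_sq {r : ℝ} (h : r ≠ 0) : sg r ^ 2 = 1 := by
  rcases sg_cases r with ⟨-, e⟩ | ⟨h', -⟩ | ⟨-, e⟩
  · simp [e]
  · exact absurd h' h
  · simp [e]

lemma o_swap (a b c : P) : o a c b = - o a b c := by
  rw [o, o, ← sg_neg]; congr 1; simp only [det]; ring

lemma o_rot (a b c : P) : o b c a = o a b c := by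
  rw [o, o]; congr 1; simp only [det, Prod.fst_sub, Prod.snd_sub]; ring

lemma not_conv {x y z t : P} {Q : Finset P} (hx : x ∈ Q) (hy : y ∈ Q) (hz : z ∈ Q) (ht : t ∈ Q)
    (h1 : x ≠ t) (h2 : y ≠ t) (h3 : z ≠ t) {α β γ : ℝ} (hs : (0 < α ∧ 0 < β ∧ 0 < γ) ∨
      (α < 0 ∧ β < 0 ∧ γ < 0))
    (e1 : (α + β + γ) * t.1 = α * x.1 + β * y.1 + γ * z.1)
    (e2 : (α + β + γ) * t.2 = α * x.2 + β * y.2 + γ * z.2) :
    ¬ ConvexIndependent ℝ ((↑) : Q → P) := by
  wlog hp : 0 < α ∧ 0 < β ∧ 0 < γ generalizing α β γ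
  · obtain ⟨a, b, c⟩ := hs.resolve_left hp
    have h : 0 < -α ∧ 0 < -β ∧ 0 < -γ := ⟨by linarith, by linarith, by linarith⟩
    exact this (Or.inl h) (by linarith) (by linarith) h
  obtain ⟨a, b, c⟩ := hp
  intro h
  refine (convexIndependent_set_iff_notMem_convexHull_sdiff (𝕜 := ℝ) (s := (Q : Set P))).1 h t ht ?_
  have hL : 0 < α + β + γ := by linarith
  have h4 := (convex_convexHull ℝ ((Q : Set P) \ {t})).sum_mem (t := (univ : Finset (Fin 3)))
    (w := ![α / (α + β + γ), β / (α + β + γ), γ / (α + β + γ)]) (z := ![x, y, z])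
    (fun i _ => by fin_cases i <;> simp <;> positivity)
    (by simp only [Fin.sum_univ_three]; simp; field_simp)
    (fun i _ => subset_convexHull ℝ _ (by fin_cases i <;> simp [*]))
  have e : t = ∑ i ∈ (univ : Finset (Fin 3)),
      ![α / (α + β + γ), β / (α + β + γ), γ / (α + β + γ)] i • ![x, y, z] i := by
    simp only [Fin.sum_univ_three]
    ext <;> simp <;> field_simp <;> linarith
  rwa [← e] at h4

/-- The sum over the six pairs of four points. -/
noncomputable def six (a b c d : P) : ℤ := o a b c * o a b d + o a c b * o a c d +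
  o a d b * o a d c + o b c a * o b c d + o b d a * o b d c + o c d a * o c d b

lemma six_eq (a b c d : P) : six a b c d = o a b c * o a b d - o a b c * o a c d +
    o a b d * o a c d + o a b c * o b c d - o a b d * o b c d + o a c d * o b c d := by
  rw [six, o_swap a b c, o_swap a b d, o_swap a c d, o_rot a b c, o_rot a b d, o_swap b c d,
    o_rot a c d, o_rot b c d]
  ring

lemma det_rel (a b c d : P) : det (b - a) (c - a) - det (b - a) (d - a) + det (c - a) (d - a) -
    det (c - b) (d - b) = 0 := by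
  simp only [det, Prod.fst_sub, Prod.snd_sub]; ring

lemma six_nonneg (a b c d : P) : 0 ≤ six a b c d := by
  have h := det_rel a b c d
  rw [six_eq, o, o, o, o]
  generalize det (b - a) (c - a) = A at *
  generalize det (b - a) (d - a) = B at *
  generalize det (c - a) (d - a) = C at *
  generalize det (c - b) (d - b) = D at *
  rcases sg_cases A with ⟨h1, e1⟩ | ⟨h1, e1⟩ | ⟨h1, e1⟩ <;>
    rcases sg_cases B with ⟨h2, e2⟩ | ⟨h2, e2⟩ | ⟨h2, e2⟩ <;>
    rcases sg_cases C with ⟨h3, e3⟩ | ⟨h3, e3⟩ | ⟨h3, e3⟩ <;>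
    rcases sg_cases D with ⟨h4, e4⟩ | ⟨h4, e4⟩ | ⟨h4, e4⟩ <;>
    rw [e1, e2, e3, e4] <;> first | decide | (exfalso; linarith)

lemma six_conv {a b c d : P} {Q : Finset P} (ha : a ∈ Q) (hb : b ∈ Q) (hc : c ∈ Q) (hd : d ∈ Q)
    (ab : a ≠ b) (ac : a ≠ c) (ad : a ≠ d) (bc : b ≠ c) (bd : b ≠ d) (cd : c ≠ d) (hG : GP Q)
    (hQ : ConvexIndependent ℝ ((↑) : Q → P)) : 2 ≤ six a b c d := by
  have h := det_rel a b c d
  have nA := hG a ha b hb c hc ab ac bc
  have nB := hG a ha b hb d hd ab ad bd
  have nC := hG a ha c hc d hd ac ad cd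
  have nD := hG b hb c hc d hd bc bd cd
  have ia := fun hs => not_conv hb hc hd ha ab.symm ac.symm ad.symm (α := det (c - a) (d - a))
    (β := - det (b - a) (d - a)) (γ := det (b - a) (c - a)) hs
    (by simp only [det, Prod.fst_sub, Prod.snd_sub]; ring)
    (by simp only [det, Prod.fst_sub, Prod.snd_sub]; ring) hQ
  have ib := fun hs => not_conv ha hc hd hb ab bc.symm bd.symm (α := det (c - b) (d - b))
    (β := det (b - a) (d - a)) (γ := - det (b - a) (c - a)) hs
    (by simp only [det, Prod.fst_sub, Prod.snd_sub]; ring)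
    (by simp only [det, Prod.fst_sub, Prod.snd_sub]; ring) hQ
  have ic := fun hs => not_conv ha hb hd hc ac bc cd.symm (α := - det (c - b) (d - b))
    (β := det (c - a) (d - a)) (γ := det (b - a) (c - a)) hs
    (by simp only [det, Prod.fst_sub, Prod.snd_sub]; ring)
    (by simp only [det, Prod.fst_sub, Prod.snd_sub]; ring) hQ
  have id := fun hs => not_conv ha hb hc hd ad bd cd (α := det (c - b) (d - b))
    (β := - det (c - a) (d - a)) (γ := det (b - a) (d - a)) hs
    (by simp only [det, Prod.fst_sub, Prod.snd_sub]; ring)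
    (by simp only [det, Prod.fst_sub, Prod.snd_sub]; ring) hQ
  rw [six_eq, o, o, o, o]
  generalize det (b - a) (c - a) = A at *
  generalize det (b - a) (d - a) = B at *
  generalize det (c - a) (d - a) = C at *
  generalize det (c - b) (d - b) = D at *
  simp only [neg_pos, neg_lt_zero, not_or, imp_false] at ia ib ic id
  clear ha hb hc hd ab ac ad bc bd cd hG hQ
  rcases sg_cases A with ⟨h1, e1⟩ | ⟨h1, -⟩ | ⟨h1, e1⟩ <;>
    rcases sg_cases B with ⟨h2, e2⟩ | ⟨h2, -⟩ | ⟨h2, e2⟩ <;>
    rcases sg_cases C with ⟨h3, e3⟩ | ⟨h3, -⟩ | ⟨h3, e3⟩ <;>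
    rcases sg_cases D with ⟨h4, e4⟩ | ⟨h4, -⟩ | ⟨h4, e4⟩ <;>
    first
      | contradiction
      | (rw [e1, e2, e3, e4]; decide) | (exfalso; linarith)
      | (refine absurd ⟨?_, ?_, ?_⟩ ia.1 <;> assumption)
      | (refine absurd ⟨?_, ?_, ?_⟩ ia.2 <;> assumption)
      | (refine absurd ⟨?_, ?_, ?_⟩ ib.1 <;> assumption)
      | (refine absurd ⟨?_, ?_, ?_⟩ ib.2 <;> assumption)
      | (refine absurd ⟨?_, ?_, ?_⟩ ic.1 <;> assumption)
      | (refine absurd ⟨?_, ?_, ?_⟩ ic.2 <;> assumption)
      | (refine absurd ⟨?_, ?_, ?_⟩ id.1 <;> assumption)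
      | (refine absurd ⟨?_, ?_, ?_⟩ id.2 <;> assumption)

/-- A fourfold sum. -/
def F (S : Finset P) (g : P → P → P → P → ℤ) : ℤ := ∑ a ∈ S, ∑ b ∈ S, ∑ c ∈ S, ∑ d ∈ S, g a b c d

lemma s12 (S : Finset P) (g : P → P → P → P → ℤ) : F S (fun a b c d => g b a c d) = F S g :=
  sum_comm
lemma s23 (S : Finset P) (g : P → P → P → P → ℤ) : F S (fun a b c d => g a c b d) = F S g :=
  sum_congr rfl fun _ _ => sum_comm
lemma s34 (S : Finset P) (g : P → P → P → P → ℤ) : F S (fun a b c d => g a b d c) = F S g :=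
  sum_congr rfl fun _ _ => sum_congr rfl fun _ _ => sum_comm

lemma F_six (S : Finset P) : F S six = 6 * F S fun a b c d => o a b c * o a b d := by
  have h1 := s23 S fun a b c d => o a b c * o a b d
  have h2 := (s34 S _).trans h1
  have h3 := (s12 S _).trans h1
  have h4 := (s12 S _).trans h2
  have h5 := (s23 S _).trans h4
  simp only [F, six, sum_add_distrib] at *
  rw [h1, h2, h3, h4, h5]; ring

lemma img (e : Fin 4 → P) [DecidableEq P] : univ.image e = {e 0, e 1, e 2, e 3} := by
  ext x; simp [Fin.exists_fin_succ, eq_comm]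

lemma GP.mono {S A : Finset P} (h : GP S) (hA : A ⊆ S) : GP A :=
  fun a ha b hb c hc => h a (hA ha) b (hA hb) c (hA hc)

open Classical in
lemma fiber {S Q : Finset P} (h1 : Q ⊆ S) (h2 : Q.card = 4) : 24 ≤ ((S ×ˢ S ×ˢ S ×ˢ S).filter
    fun t => ({t.1, t.2.1, t.2.2.1, t.2.2.2} : Finset P) = Q).card := by
  obtain ⟨e, he, hm⟩ : ∃ e : Fin 4 → P, Function.Injective e ∧ ∀ i, e i ∈ Q :=
    ⟨fun i => (Q.equivFinOfCardEq h2).symm i,
      Subtype.val_injective.comp (Q.equivFinOfCardEq h2).symm.injective,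
      fun i => ((Q.equivFinOfCardEq h2).symm i).2⟩
  have hi : ∀ σ : Equiv.Perm (Fin 4), ({e (σ 0), e (σ 1), e (σ 2), e (σ 3)} : Finset P) = Q :=
    fun σ => by
    rw [← img (fun i => e (σ i))]
    refine eq_of_subset_of_card_le (fun x hx => ?_) ?_
    · obtain ⟨i, -, rfl⟩ := mem_image.1 hx
      exact hm _
    · rw [card_image_of_injective (f := fun i => e (σ i)) _ (he.comp σ.injective), h2, card_univ,
        Fintype.card_fin]
  have : (univ : Finset (Equiv.Perm (Fin 4))).card = 24 := by
    rw [card_univ, Fintype.card_perm, Fintype.card_fin]; rfl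
  rw [← this]
  refine card_le_card_of_injOn (fun σ => (e (σ 0), e (σ 1), e (σ 2), e (σ 3)))
    (fun σ _ => ?_) fun σ _ τ _ h => ?_
  · exact mem_coe.2 (mem_filter.2 ⟨mem_product.2 ⟨h1 (hm _), mem_product.2 ⟨h1 (hm _),
      mem_product.2 ⟨h1 (hm _), h1 (hm _)⟩⟩⟩, hi σ⟩)
  · simp only [Prod.mk.injEq, he.eq_iff] at h
    refine Equiv.ext fun i => ?_
    fin_cases i
    exacts [h.1, h.2.1, h.2.2.1, h.2.2.2]

open Classical in
theorem count {S : Finset P} (hS : GP S) :
    8 * (conv S : ℤ) ≤ ∑ a ∈ S, ∑ b ∈ S, (∑ c ∈ S, o a b c) ^ 2 := by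
  have e : ∑ a ∈ S, ∑ b ∈ S, (∑ c ∈ S, o a b c) ^ 2 = F S fun a b c d => o a b c * o a b d := by
    simp only [F, sq, sum_mul_sum]
  obtain ⟨C, hC⟩ : ∃ C, C = (S.powersetCard 4).filter
    fun Q : Finset P => ConvexIndependent ℝ ((↑) : Q → P) := ⟨_, rfl⟩
  obtain ⟨T, hT⟩ : ∃ T, T = (S ×ˢ S ×ˢ S ×ˢ S).filter
    fun t => ({t.1, t.2.1, t.2.2.1, t.2.2.2} : Finset P) ∈ C := ⟨_, rfl⟩
  have h4 : conv S = C.card := by rw [hC, conv]
  have hC' : ∀ Q ∈ C, Q ⊆ S ∧ Q.card = 4 ∧ ConvexIndependent ℝ ((↑) : Q → P) := fun Q hQ => by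
    rw [hC, mem_filter, mem_powersetCard, and_assoc] at hQ
    exact hQ
  have h1 : 24 * C.card ≤ T.card := by
    refine mul_card_image_le_card_of_maps_to (f := fun t => {t.1, t.2.1, t.2.2.1, t.2.2.2})
      (fun t ht => ?_) 24 fun Q hQ => (fiber (hC' Q hQ).1 (hC' Q hQ).2.1).trans (card_le_card ?_)
    · rw [hT] at ht
      exact (mem_filter.1 ht).2
    · intro t ht
      rw [mem_filter] at ht
      rw [hT, mem_filter, mem_filter, ht.2]
      exact ⟨⟨ht.1, hQ⟩, rfl⟩
  have h2 : 2 * (T.card : ℤ) ≤ F S six := by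
    rw [hT, card_filter]
    push_cast
    simp only [mul_sum, sum_product, F]
    refine sum_le_sum fun a _ => sum_le_sum fun b _ => sum_le_sum fun c _ => sum_le_sum fun d _ => ?_
    split_ifs with h
    · obtain ⟨h5, h6, h7⟩ := hC' _ h
      have hn : [a, b, c, d].Nodup := by
        rw [← List.dedup_eq_self]
        refine (List.dedup_sublist _).eq_of_length ?_
        have : ({a, b, c, d} : Finset P) = [a, b, c, d].toFinset := by simp
        rw [this, List.card_toFinset] at h6
        exact h6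
      simp only [List.nodup_cons, List.mem_cons, List.not_mem_nil, or_false, not_or] at hn
      exact six_conv (by simp) (by simp) (by simp) (by simp) hn.1.1 hn.1.2.1 hn.1.2.2 hn.2.1.1
        hn.2.1.2 hn.2.2.1 (hS.mono h5) h7
    · simpa using six_nonneg a b c d
  rw [F_six] at h2
  have h3 : (24 * C.card : ℤ) ≤ T.card := by exact_mod_cast h1
  rw [e, h4]
  linarith

end CrUp

end MrgPart0

-- ======== part 1: formerly Pool.Agent.MP_31ecd0_co.up.Blow
section MrgPart1

/-! Replacing the points of a weighted configuration by short, almost straight clusters. -/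

set_option linter.unusedSectionVars false

namespace CrUp

open Finset Filter Topology

lemma sum_lin (n : ℕ) (c : ℤ) : ∑ s ∈ range n, (c - 2 * s) = n * c - n * (n - 1) := by
  induction n with
  | zero => simp
  | succ n ih => rw [sum_range_succ, ih]; push_cast; ring

lemma sum_sq (n : ℕ) (c : ℤ) : 3 * ∑ s ∈ range n, (c - 2 * s) ^ 2 =
    3 * n * c ^ 2 - 6 * c * n * (n - 1) + 2 * (n - 1) * n * (2 * n - 1) := by
  induction n with
  | zero => simp
  | succ n ih => rw [sum_range_succ, mul_add, ih]; push_cast; ring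

lemma one_dim (n : ℕ) (A α : ℤ) (h : α ^ 2 = 1) :
    3 * ∑ s ∈ range n, (A + α * (n - 1 - 2 * s)) ^ 2 ≤ 3 * n * A ^ 2 + (n : ℤ) ^ 3 := by
  have e : ∑ s ∈ range n, (A + α * (n - 1 - 2 * s)) ^ 2 = n * A ^ 2 +
      2 * A * α * ∑ s ∈ range n, ((n : ℤ) - 1 - 2 * s) + ∑ s ∈ range n, ((n : ℤ) - 1 - 2 * s) ^ 2 := by
    rw [mul_sum, ← nsmul_eq_mul, ← card_range n, ← sum_const, card_range, ← sum_add_distrib,
      ← sum_add_distrib]
    exact sum_congr rfl fun s _ => by linear_combination ((n : ℤ) - 1 - 2 * s) ^ 2 * h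
  have h1 := sum_sq n (n - 1)
  have h2 : (0 : ℤ) ≤ n := by positivity
  rw [e, sum_lin]
  linarith

lemma two_dim (n m : ℕ) (A α β : ℤ) (h : α ^ 2 = 1) (h' : β ^ 2 = 1) :
    3 * ∑ s ∈ range n, ∑ u ∈ range m, (A + α * (n - 1 - 2 * s) + β * (m - 1 - 2 * u)) ^ 2 ≤
      3 * n * m * A ^ 2 + (n : ℤ) ^ 3 * m + n * (m : ℤ) ^ 3 := by
  have h1 := sum_le_sum (s := range n) fun s _ => one_dim m (A + α * (n - 1 - 2 * s)) β h'
  have h2 := mul_le_mul_of_nonneg_left (one_dim n A α h) (show (0 : ℤ) ≤ m by positivity)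
  rw [← mul_sum, sum_add_distrib, ← mul_sum, sum_const, card_range, nsmul_eq_mul] at h1
  linarith

lemma sum_sg (n s : ℕ) (h : s < n) : ∑ v ∈ range n, sg ((v : ℝ) - s) = n - 1 - 2 * s := by
  induction n, h using Nat.le_induction with
  | base =>
    rw [sum_range_succ, sub_self, sg_zero, sum_congr rfl (g := fun _ => -1) fun v hv =>
      sg_neg' (sub_neg.2 (by exact_mod_cast mem_range.1 hv))]
    simp; ring
  | succ n hn ih =>
    rw [sum_range_succ, ih, sg_pos (sub_pos.2 (by exact_mod_cast hn))]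
    push_cast; ring

lemma ev_sg {f : ℝ → ℝ} (hf : Continuous f) (h : f 0 ≠ 0) :
    ∀ᶠ t in 𝓝[>] (0 : ℝ), sg (f t) = sg (f 0) := by
  refine Eventually.filter_mono nhdsWithin_le_nhds ?_
  rcases lt_or_gt_of_ne h with h | h
  · filter_upwards [hf.continuousAt.eventually_lt continuousAt_const h] with t ht
    rw [sg_neg' ht, sg_neg' h]
  · filter_upwards [continuousAt_const.eventually_lt hf.continuousAt h] with t ht
    rw [sg_pos ht, sg_pos h]

lemma sg_ne {r : ℝ} : sg r ≠ 0 ↔ r ≠ 0 :=
  ⟨fun h h0 => h (h0 ▸ sg_zero), fun h h0 => by simpa [h0] using sg_sq h⟩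

variable {ι : Type} [Fintype ι] [DecidableEq ι] (p d : ι → P) (w : ι → ℕ)

/-- The side of point `j` with respect to the line through point `i` in direction `d i`. -/
noncomputable def tau (i j : ι) : ℤ := sg (det (d i) (p j - p i))

/-- The weighted side difference of the line through points `i` and `j`. -/
noncomputable def Dl (i j : ι) : ℤ := ∑ k, w k * o (p i) (p j) (p k)

/-- The weighted side difference of the line through point `i` in direction `d i`. -/
noncomputable def eps (i : ι) : ℤ := ∑ k, w k * tau p d i k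

/-- The contribution of the clusters `i` and `j`. -/
noncomputable def term (i j : ι) : ℤ :=
  if j = i then 3 * (w i : ℤ) ^ 2 * (|eps p d w i| + w i) ^ 2
  else 3 * w i * w j * Dl p w i j ^ 2 + (w i : ℤ) ^ 3 * w j + w i * (w j : ℤ) ^ 3

/-- The points of the clusters. -/
def X (t : ℝ) (a : Σ _ : ι, ℕ) : P :=
  ((p a.1).1 + t * a.2 * (d a.1).1 - (t * a.2) ^ 2 * (d a.1).2,
    (p a.1).2 + t * a.2 * (d a.1).2 + (t * a.2) ^ 2 * (d a.1).1)

variable {p d}

lemma X_zero (a : Σ _ : ι, ℕ) : X p d 0 a = p a.1 := by simp [X]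

lemma ev_X (hp : ∀ i j k, i ≠ j → i ≠ k → j ≠ k → det (p j - p i) (p k - p i) ≠ 0)
    (hd : ∀ i j, i ≠ j → det (d i) (p j - p i) ≠ 0) (a b c : Σ _ : ι, ℕ) :
    ∀ᶠ t in 𝓝[>] (0 : ℝ), (a.1 ≠ b.1 → a.1 ≠ c.1 → b.1 ≠ c.1 →
      o (X p d t a) (X p d t b) (X p d t c) = o (p a.1) (p b.1) (p c.1)) ∧
      (a.1 = b.1 → a.1 ≠ c.1 →
        o (X p d t a) (X p d t b) (X p d t c) = sg ((b.2 : ℝ) - a.2) * tau p d a.1 c.1) ∧
      (a.1 ≠ b.1 → X p d t a ≠ X p d t b) := by
  refine Eventually.and ?_ (Eventually.and ?_ ?_)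
  · simp only [eventually_imp_distrib_left]
    intro h1 h2 h3
    have := ev_sg (f := fun t => det (X p d t b - X p d t a) (X p d t c - X p d t a))
      (by simp only [det, X, Prod.fst_sub, Prod.snd_sub]; fun_prop)
      (by simpa only [X_zero] using hp _ _ _ h1 h2 h3)
    simpa only [X_zero, o] using this
  · simp only [eventually_imp_distrib_left]
    intro h1 h2
    have := ev_sg (f := fun t => det ((d a.1).1 - t * (a.2 + b.2) * (d a.1).2,
      (d a.1).2 + t * (a.2 + b.2) * (d a.1).1) (X p d t c - X p d t a))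
      (by simp only [det, X, Prod.fst_sub, Prod.snd_sub]; fun_prop)
      (by simpa [X_zero] using hd _ _ h2)
    filter_upwards [this, self_mem_nhdsWithin] with t ht (h0 : 0 < t)
    simp only [X_zero, zero_mul, sub_zero, add_zero, Prod.mk.eta] at ht
    rw [tau, ← ht, ← sg_mul, ← one_mul (sg (_ * _)), ← sg_pos h0, ← sg_mul, o]
    congr 1
    simp only [det, X, Prod.fst_sub, Prod.snd_sub, ← h1]
    ring
  · simp only [eventually_imp_distrib_left]
    intro h1
    have := ev_sg (f := fun t => det (d a.1) (X p d t b - X p d t a))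
      (by simp only [det, X, Prod.fst_sub, Prod.snd_sub]; fun_prop)
      (by simpa only [X_zero] using hd _ _ h1)
    filter_upwards [this] with t ht h
    rw [h, X_zero, X_zero] at ht
    exact sg_ne.2 (hd _ _ h1) (by rw [← ht]; simp [det])

lemma o_left (a b : P) : o a b a = 0 := by simp [o, det]
lemma o_right (a b : P) : o a b b = 0 := by simp [o, det, mul_comm]

theorem blow (hp : ∀ i j k, i ≠ j → i ≠ k → j ≠ k → det (p j - p i) (p k - p i) ≠ 0)
    (hd : ∀ i j, i ≠ j → det (d i) (p j - p i) ≠ 0) (h0 : ∀ i, d i ≠ 0) (N : ℕ) :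
    ∃ S : Finset P, S.card = N * ∑ i, w i ∧ GP S ∧
      24 * (conv S : ℤ) ≤ (N : ℤ) ^ 4 * ∑ i, ∑ j, term p d w i j := by
  classical
  obtain ⟨I, hI⟩ : ∃ I : Finset (Σ _ : ι, ℕ), I = univ.sigma fun i => range (N * w i) := ⟨_, rfl⟩
  obtain ⟨t, H, ht⟩ := (((eventually_all_finset I).2 fun a _ => (eventually_all_finset I).2
    fun b _ => (eventually_all_finset I).2 fun c _ => ev_X hp hd a b c).and
    self_mem_nhdsWithin).exists
  replace ht : t ≠ 0 := ne_of_gt ht
  have hn : ∀ i, (d i).1 ^ 2 + (d i).2 ^ 2 ≠ 0 := fun i h => h0 i (Prod.ext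
    (show (d i).1 = 0 by nlinarith [sq_nonneg (d i).1, sq_nonneg (d i).2])
    (show (d i).2 = 0 by nlinarith [sq_nonneg (d i).1, sq_nonneg (d i).2]))
  have hne : ∀ a b : Σ _ : ι, ℕ, a ≠ b → a.1 = b.1 → (b.2 : ℝ) - a.2 ≠ 0 := by
    rintro ⟨i, s⟩ ⟨j, u⟩ h rfl h'
    exact h (by rw [show s = u by exact_mod_cast (sub_eq_zero.1 h').symm])
  have hinj : Set.InjOn (X p d t) I := fun a ha b hb h => by
    by_contra hab
    by_cases e : a.1 = b.1
    · refine mul_ne_zero (mul_ne_zero ht (hne a b hab e)) (hn a.1) ?_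
      simp only [X, Prod.mk.injEq, ← e] at h
      linear_combination - (d a.1).1 * h.1 - (d a.1).2 * h.2
    · exact (H a ha b hb a ha).2.2 e h
  have h2 : ∀ a ∈ I, ∀ b ∈ I, ∀ c ∈ I, a ≠ b → a.1 = b.1 → a.1 ≠ c.1 →
      o (X p d t a) (X p d t b) (X p d t c) ≠ 0 := fun a ha b hb c hc h1 h2 h3 => by
    rw [(H a ha b hb c hc).2.1 h2 h3]
    exact mul_ne_zero (sg_ne.2 (hne a b h1 h2)) (sg_ne.2 (hd _ _ h3))
  have hG : GP (I.image (X p d t)) := by
    simp only [GP, forall_mem_image]
    intro a ha b hb c hc ab ac bc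
    replace ab : a ≠ b := fun h => ab (h ▸ rfl)
    replace ac : a ≠ c := fun h => ac (h ▸ rfl)
    replace bc : b ≠ c := fun h => bc (h ▸ rfl)
    by_cases e1 : a.1 = b.1
    · by_cases e2 : a.1 = c.1
      · intro h
        refine mul_ne_zero (mul_ne_zero (mul_ne_zero (mul_ne_zero (pow_ne_zero 3 ht)
          (hne a b ab e1)) (hne a c ac e2)) (hne b c bc (e1.symm.trans e2))) (hn a.1) ?_
        simp only [det, X, Prod.fst_sub, Prod.snd_sub, ← e1, ← e2] at h
        linear_combination h
      · exact sg_ne.1 (h2 a ha b hb c hc ab e1 e2)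
    · refine sg_ne.1 (show o _ _ _ ≠ 0 from ?_)
      by_cases e2 : a.1 = c.1
      · rw [o_swap]; exact neg_ne_zero.2 (h2 a ha c hc b hb ac e2 e1)
      by_cases e3 : b.1 = c.1
      · rw [← o_rot]; exact h2 b hb c hc a ha bc e3 (Ne.symm e1)
      · rw [(H a ha b hb c hc).1 e1 e2 e3]
        exact sg_ne.2 (hp _ _ _ e1 e2 e3)
  refine ⟨I.image (X p d t), ?_, hG, ?_⟩
  · rw [card_image_of_injOn hinj, hI, card_sigma, mul_sum]
    simp only [card_range]
  have h3 := count hG
  simp only [sum_image hinj] at h3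
  have hm : ∀ i, ∀ s ∈ range (N * w i), (⟨i, s⟩ : Σ _ : ι, ℕ) ∈ I := fun i s hs => by
    rw [hI]; exact mem_sigma.2 ⟨mem_univ _, hs⟩
  have h4 : ∀ i j, 3 * ∑ s ∈ range (N * w i), ∑ u ∈ range (N * w j), (∑ k, ∑ v ∈ range (N * w k),
      o (X p d t ⟨i, s⟩) (X p d t ⟨j, u⟩) (X p d t ⟨k, v⟩)) ^ 2 ≤ (N : ℤ) ^ 4 * term p d w i j := by
    intro i j
    unfold term
    split_ifs with e
    · subst e
      have h5 : ∀ s ∈ range (N * w j), ∀ u ∈ range (N * w j), (∑ k, ∑ v ∈ range (N * w k),
          o (X p d t ⟨j, s⟩) (X p d t ⟨j, u⟩) (X p d t ⟨k, v⟩)) ^ 2 ≤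
          (N * (|eps p d w j| + w j)) ^ 2 := fun s hs u hu => by
        have e1 : ∑ k, ∑ v ∈ range (N * w k), o (X p d t ⟨j, s⟩) (X p d t ⟨j, u⟩) (X p d t ⟨k, v⟩) =
            sg ((u : ℝ) - s) * (N * eps p d w j) + ∑ v ∈ range (N * w j),
              o (X p d t ⟨j, s⟩) (X p d t ⟨j, u⟩) (X p d t ⟨j, v⟩) := by
          rw [eps, mul_sum, mul_sum, ← add_sum_erase _ _ (mem_univ j),
            ← add_sum_erase _ _ (mem_univ j), add_comm, tau, sub_self]
          congr 1
          rw [show det (d j) 0 = 0 by simp [det], sg_zero, mul_zero, mul_zero, mul_zero, zero_add]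
          refine sum_congr rfl fun k hk => ?_
          rw [sum_congr rfl fun v hv => (H _ (hm j s hs) _ (hm j u hu) _ (hm k v hv)).2.1 rfl
            (ne_of_mem_erase hk).symm]
          simp only [sum_const, card_range, nsmul_eq_mul]
          push_cast; ring
        have e2 : |∑ v ∈ range (N * w j), o (X p d t ⟨j, s⟩) (X p d t ⟨j, u⟩) (X p d t ⟨j, v⟩)| ≤
            N * w j := (abs_sum_le_sum_abs _ _).trans ((sum_le_sum fun v _ => sg_abs_le _).trans
              (by simp))
        have e3 : |sg ((u : ℝ) - s) * (N * eps p d w j)| ≤ N * |eps p d w j| := by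
          rw [abs_mul, abs_mul, Nat.abs_cast]
          exact mul_le_of_le_one_left (by positivity) (sg_abs_le _)
        rw [e1, sq_le_sq, abs_of_nonneg (a := (N : ℤ) * _) (by positivity), mul_add]
        exact (abs_add_le _ _).trans (add_le_add e3 e2)
      refine (mul_le_mul_of_nonneg_left (sum_le_sum fun s hs => sum_le_sum fun u hu =>
        h5 s hs u hu) (by norm_num)).trans (le_of_eq ?_)
      simp only [sum_const, card_range, nsmul_eq_mul]
      push_cast; ring
    · have h5 : ∀ s ∈ range (N * w i), ∀ u ∈ range (N * w j), ∑ k, ∑ v ∈ range (N * w k),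
          o (X p d t ⟨i, s⟩) (X p d t ⟨j, u⟩) (X p d t ⟨k, v⟩) = N * Dl p w i j +
          (- tau p d i j) * ((N * w i : ℕ) - 1 - 2 * s) + tau p d j i * ((N * w j : ℕ) - 1 - 2 * u) := by
        intro s hs u hu
        have hj : j ∈ univ.erase i := mem_erase.2 ⟨e, mem_univ _⟩
        rw [Dl, mul_sum, ← add_sum_erase _ _ (mem_univ i), ← add_sum_erase _ _ (mem_univ i),
          ← add_sum_erase _ _ hj, ← add_sum_erase _ _ hj, o_left, o_right,
          ← sum_sg _ _ (mem_range.1 hs), ← sum_sg _ _ (mem_range.1 hu), mul_sum, mul_sum,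
          sum_congr rfl fun v hv => (o_swap _ _ _).trans (congrArg Neg.neg
            ((H _ (hm i s hs) _ (hm i v hv) _ (hm j u hu)).2.1 rfl (Ne.symm e))),
          sum_congr rfl fun v hv => (o_rot _ _ _).symm.trans
            ((H _ (hm j u hu) _ (hm j v hv) _ (hm i s hs)).2.1 rfl e),
          sum_congr rfl fun k hk => sum_congr rfl fun v hv =>
            (H _ (hm i s hs) _ (hm j u hu) _ (hm k v hv)).1 (Ne.symm e)
              (ne_of_mem_erase (mem_of_mem_erase hk)).symm (ne_of_mem_erase hk).symm]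
        simp only [sum_const, card_range, nsmul_eq_mul, neg_mul, mul_comm (tau _ _ _ _),
          Nat.cast_mul, mul_assoc]
        ring
      rw [sum_congr rfl fun s hs => sum_congr rfl fun u hu => congrArg (· ^ 2) (h5 s hs u hu)]
      refine (two_dim _ _ _ _ _ ((neg_sq _).trans (sg_sq (hd _ _ (Ne.symm e))))
        (sg_sq (hd _ _ e))).trans (le_of_eq ?_)
      push_cast; ring
  have h5 := sum_le_sum (s := univ) fun i _ => sum_le_sum (s := univ) fun j _ => h4 i j
  simp only [← mul_sum] at h5
  generalize conv _ = C at h3 ⊢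
  simp only [hI, sum_sigma] at h3
  rw [sum_congr rfl fun i _ => sum_comm] at h3
  linarith

end CrUp

end MrgPart1

-- ======== part 2: formerly Pool.Agent.MP_31ecd0_co.up.Row
section MrgPart2

/-! One point of a weighted configuration, seen through the angular order of the other points. -/

set_option linter.unusedSectionVars false

namespace CrUp

open Finset

variable {ι : Type} [Fintype ι] [DecidableEq ι] (p d : ι → P) (w : ι → ℕ)

/-- Point `i` is on no line through two other points, and `d i` is a free direction. -/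
def Good (i : ι) : Prop :=
  (∀ j k, i ≠ j → i ≠ k → j ≠ k → det (p j - p i) (p k - p i) ≠ 0) ∧
    (∀ j, i ≠ j → det (d i) (p j - p i) ≠ 0) ∧ d i ≠ 0

/-- The contribution of point `i`. -/
noncomputable def row (i : ι) : ℤ := ∑ j, term p d w i j

/-- The running sum along the angular order. -/
noncomputable def go (i : ι) (e : ℤ) : List ι → ℤ → ℤ
  | [], _ => 0
  | j :: L, s => w j * (3 * (e - 2 * s - tau p d i j * w j) ^ 2 + (w i : ℤ) ^ 2 + (w j : ℤ) ^ 2) +
      go i e L (s + tau p d i j * w j)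

/-- The vector from point `i` to point `j`, turned to the left of `d i`. -/
noncomputable def uu (i j : ι) : P :=
  (tau p d i j * (p j - p i).1, tau p d i j * (p j - p i).2)

variable {p d w}

lemma det_uu (i j k : ι) : det (uu p d i j) (uu p d i k) =
    tau p d i j * tau p d i k * det (p j - p i) (p k - p i) := by
  simp only [det, uu]; ring

lemma uu_pos {i j : ι} (h : det (d i) (p j - p i) ≠ 0) : 0 < det (d i) (uu p d i j) := by
  have e : det (d i) (uu p d i j) = tau p d i j * det (d i) (p j - p i) := by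
    simp only [det, uu]; ring
  rw [e, tau]
  rcases sg_cases (det (d i) (p j - p i)) with ⟨h1, e1⟩ | ⟨h1, -⟩ | ⟨h1, e1⟩
  · simpa [e1] using h1
  · exact absurd h1 h
  · simpa [e1] using h1

lemma det_trans {a u v x : P} (hu : 0 < det a u) (hv : 0 < det a v) (hx : 0 < det a x)
    (h1 : 0 < det u v) (h2 : 0 < det v x) : 0 < det u x := by
  have e : det u x * det a v = det u v * det a x + det v x * det a u := by
    simp only [det]; ring
  exact pos_of_mul_pos_of_pos_right' (e ▸ add_pos (mul_pos h1 hx) (mul_pos h2 hu)) hv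
where pos_of_mul_pos_of_pos_right' {a b : ℝ} (h : 0 < a * b) (hb : 0 < b) : 0 < a :=
  (pos_iff_pos_of_mul_pos h).2 hb

lemma o_of {i j k : ι} (hj : det (d i) (p j - p i) ≠ 0) (hk : det (d i) (p k - p i) ≠ 0)
    (h : 0 < det (uu p d i j) (uu p d i k)) : o (p i) (p j) (p k) = tau p d i j * tau p d i k := by
  rw [det_uu] at h
  rw [o]
  unfold tau at *
  rcases sg_cases (det (d i) (p j - p i)) with ⟨-, e1⟩ | ⟨h1, -⟩ | ⟨-, e1⟩ <;>
    rcases sg_cases (det (d i) (p k - p i)) with ⟨-, e2⟩ | ⟨h2, -⟩ | ⟨-, e2⟩ <;>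
    first
      | contradiction
      | (rw [e1, e2] at h ⊢; rw [sg_pos (by simpa using h)]; rfl)
      | (rw [e1, e2] at h ⊢; rw [sg_neg' (by simpa using h)]; rfl)

theorem row_of {i : ι} {L : List ι} (hl : L.length + 1 = Fintype.card ι) (h0 : L ≠ [])
    (h1 : ∀ j ∈ L, det (d i) (p j - p i) ≠ 0)
    (h2 : L.IsChain fun j k => 0 < det (uu p d i j) (uu p d i k)) :
    Good p d i ∧ eps p d w i = (L.map fun k => tau p d i k * w k).sum ∧
      row p d w i = w i * go p d w i (eps p d w i) L 0 +
        3 * (w i : ℤ) ^ 2 * (|eps p d w i| + w i) ^ 2 := by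
  have h3 : L.Pairwise fun j k => 0 < det (uu p d i j) (uu p d i k) := by
    clear hl h0
    induction L with
    | nil => exact List.Pairwise.nil
    | cons a L ih =>
      have h4 := ih (fun j hj => h1 j (List.mem_cons_of_mem _ hj)) h2.tail
      refine List.Pairwise.cons ?_ h4
      cases L with
      | nil => simp
      | cons b L =>
        have h5 := (List.isChain_cons_cons.1 h2).1
        intro c hc
        rcases List.mem_cons.1 hc with rfl | hc'
        · exact h5
        · exact det_trans (uu_pos (h1 a (by simp))) (uu_pos (h1 b (by simp)))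
            (uu_pos (h1 c (by simp [hc']))) h5 (List.rel_of_pairwise_cons h4 hc')
  have hn : L.Nodup := h3.imp fun {a b} h e => by simp [e, det, mul_comm] at h
  have hi : i ∉ L := fun h => h1 i h (by simp [det])
  have hu : L.toFinset = univ.erase i := by
    refine eq_of_subset_of_card_le (fun j hj => mem_erase.2 ⟨fun e => hi (e ▸ List.mem_toFinset.1 hj),
      mem_univ _⟩) ?_
    rw [card_erase_of_mem (mem_univ _), List.toFinset_card_of_nodup hn, card_univ]
    omega
  have hm : ∀ j, i ≠ j → j ∈ L := fun j h =>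
    List.mem_toFinset.1 (hu ▸ mem_erase.2 ⟨h.symm, mem_univ _⟩)
  have hs : ∀ f : ι → ℤ, ∑ j, f j = f i + (L.map f).sum := fun f => by
    rw [← add_sum_erase _ _ (mem_univ i), ← hu, List.sum_toFinset _ hn]
  have he : eps p d w i = (L.map fun k => tau p d i k * w k).sum := by
    rw [eps, hs]; simp [tau, det, mul_comm]
  refine ⟨⟨fun j k hj hk hjk => ?_, fun j hj => h1 j (hm j hj), fun h => ?_⟩, he, ?_⟩
  · have h4 : L.Pairwise fun j k => det (p j - p i) (p k - p i) ≠ 0 ∧ det (p k - p i) (p j - p i) ≠ 0 :=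
      h3.imp fun {a b} h => by
        rw [det_uu] at h
        have h5 := right_ne_zero_of_mul h.ne'
        exact ⟨h5, fun h6 => h5 (by simp only [det] at *; linarith)⟩
    have : Std.Symm fun j k => det (p j - p i) (p k - p i) ≠ 0 ∧ det (p k - p i) (p j - p i) ≠ 0 :=
      ⟨fun a b h => ⟨h.2, h.1⟩⟩
    exact (h4.forall (hm j hj) (hm k hk) hjk).1
  · obtain ⟨a, ha⟩ := List.exists_mem_of_ne_nil L h0
    exact h1 a ha (by simp [h, det])
  have h4 : ∀ B A : List ι, L = A ++ B → (B.map (term p d w i)).sum =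
      w i * go p d w i (eps p d w i) B (A.map fun k => tau p d i k * w k).sum := by
    intro B
    induction B with
    | nil => simp [go]
    | cons j B ih =>
      intro A hL
      have hj : j ∈ L := by simp [hL]
      have h5 := ih (A ++ [j]) (by simp [hL])
      rw [List.map_append, List.sum_append, List.map_singleton, List.sum_singleton] at h5
      have h6 := h3
      rw [hL, List.pairwise_append, List.pairwise_cons] at h6
      have h7 : Dl p w i j = tau p d i j * ((B.map fun k => tau p d i k * w k).sum -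
          (A.map fun k => tau p d i k * w k).sum) := by
        rw [Dl, hs, hL, o_left, List.map_append, List.sum_append, List.map_cons, List.sum_cons,
          o_right, mul_sub, ← List.sum_map_mul_left, ← List.sum_map_mul_left,
          List.map_congr_left (l := B) (g := fun k => tau p d i j * (tau p d i k * w k))
            fun k hk => by rw [o_of (h1 j hj) (h1 k (by simp [hL, hk])) (h6.2.1.1 k hk)]; ring,
          List.map_congr_left (l := A) (g := fun k => -1 * (tau p d i j * (tau p d i k * w k)))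
            fun k hk => by
              rw [o_swap, o_of (h1 k (by simp [hL, hk])) (h1 j hj) (h6.2.2 k hk j (by simp))]; ring,
          List.sum_map_mul_left]
        ring
      have h8 : tau p d i j ^ 2 = 1 := sg_sq (h1 j hj)
      have h9 := he
      rw [hL, List.map_append, List.sum_append, List.map_cons, List.sum_cons] at h9
      rw [List.map_cons, List.sum_cons, h5, go, term, if_neg fun e : j = i => hi (e ▸ hj), h7, mul_pow, h8,
        h9]
      ring
  rw [row, hs, h4 L [] rfl, term, if_pos rfl, add_comm]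
  rfl

theorem row_sym (e : ι ≃ ι) (ρ : P → P) (h1 : ∀ u v, det (ρ u) (ρ v) = det u v)
    (h2 : ∀ u v, ρ u - ρ v = ρ (u - v)) (hp : ∀ i, p (e i) = ρ (p i)) (hd : ∀ i, d (e i) = ρ (d i))
    (hw : ∀ i, w (e i) = w i) (i : ι) :
    (Good p d i → Good p d (e i)) ∧ row p d w (e i) = row p d w i := by
  have ht : ∀ i j, tau p d (e i) (e j) = tau p d i j := fun i j => by
    rw [tau, tau, hp, hp, hd, h2, h1]
  have hD : ∀ i j, Dl p w (e i) (e j) = Dl p w i j := fun i j => by
    rw [Dl, Dl, ← e.sum_comp]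
    simp only [o, hp, hw, h2, h1]
  have he : ∀ i, eps p d w (e i) = eps p d w i := fun i => by
    rw [eps, eps, ← e.sum_comp]
    simp only [ht, hw]
  refine ⟨fun h => ⟨fun j k => ?_, fun j => ?_, fun h3 => h.2.2 ?_⟩, ?_⟩
  · obtain ⟨j, rfl⟩ := e.surjective j
    obtain ⟨k, rfl⟩ := e.surjective k
    simpa only [hp, h2, h1, ne_eq, e.apply_eq_iff_eq] using h.1 j k
  · obtain ⟨j, rfl⟩ := e.surjective j
    simpa only [hp, hd, h2, h1, ne_eq, e.apply_eq_iff_eq] using h.2.1 j
  · have a1 := h1 (d i) (0, 1)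
    have a2 := h1 (d i) (1, 0)
    rw [← hd, h3] at a1 a2
    simp only [det, Prod.fst_zero, Prod.snd_zero] at a1 a2
    exact Prod.ext (show (d i).1 = 0 by linarith) (show (d i).2 = 0 by linarith)
  · rw [row, row, ← e.sum_comp]
    simp only [term, hD, he, hw, e.apply_eq_iff_eq]

end CrUp

end MrgPart2

-- ======== part 3: formerly Pool.Agent.MP_31ecd0_co.up.Avg
section MrgPart3

/-! Averaging over subsets, and the passage to the limit. -/

namespace CrUp

open Finset

lemma del {S : Finset P} (hS : S.Nonempty) [DecidableEq P] :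
    ∃ x ∈ S, S.card * conv (S.erase x) ≤ (S.card - 4) * conv S := by
  classical
  obtain ⟨C, hC⟩ : ∃ C, C = (S.powersetCard 4).filter
    fun Q : Finset P => ConvexIndependent ℝ ((↑) : Q → P) := ⟨_, rfl⟩
  have h1 : conv S = C.card := by rw [hC, conv]
  have h2 : ∀ x, conv (S.erase x) = (C.filter fun Q => x ∉ Q).card := fun x => by
    rw [conv, hC]
    congr 1
    ext Q
    simp only [mem_filter, mem_powersetCard, subset_erase]
    tauto
  have h3 : ∑ x ∈ S, conv (S.erase x) = (S.card - 4) * conv S := by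
    simp only [h1, h2, card_filter]
    rw [sum_comm, mul_comm, ← smul_eq_mul, ← sum_const]
    refine sum_congr rfl fun Q hQ => ?_
    rw [hC, mem_filter, mem_powersetCard] at hQ
    rw [← card_filter, ← sdiff_eq_filter, card_sdiff_of_subset hQ.1.1, hQ.1.2]
  refine exists_le_of_sum_le hS (le_of_eq ?_)
  rw [← mul_sum, h3, sum_const, smul_eq_mul]

lemma avg {n : ℕ} (hn : 4 ≤ n) (M : ℕ) (hM : n ≤ M) : ∀ S : Finset P, S.card = M → GP S →
    ∃ A : Finset P, A.card = n ∧ GP A ∧ conv A * M.choose 4 ≤ conv S * n.choose 4 := by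
  classical
  induction M, hM using Nat.le_induction with
  | base => exact fun S h1 h2 => ⟨S, h1, h2, le_rfl⟩
  | succ M hM ih =>
    intro S h1 h2
    obtain ⟨x, hx, h3⟩ := del (S := S) (card_pos.1 (by omega))
    obtain ⟨A, a1, a2, a3⟩ := ih (S.erase x) (by rw [card_erase_of_mem hx, h1]; rfl)
      (h2.mono (erase_subset _ _))
    refine ⟨A, a1, a2, Nat.le_of_mul_le_mul_right ?_ (show 0 < M + 1 - 4 by omega)⟩
    rw [h1] at h3
    calc conv A * (M + 1).choose 4 * (M + 1 - 4) = conv A * M.choose 4 * (M + 1) := by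
          rw [mul_assoc, ← Nat.choose_mul_succ_eq, mul_assoc]
      _ ≤ conv (S.erase x) * n.choose 4 * (M + 1) := Nat.mul_le_mul_right _ a3
      _ = (M + 1) * conv (S.erase x) * n.choose 4 := by ring
      _ ≤ (M + 1 - 4) * conv S * n.choose 4 := Nat.mul_le_mul_right _ h3
      _ = _ := by ring

theorem of_blow {W : ℕ} {K : ℤ} {c : ℝ} (hW : 0 < W) (hc0 : 0 ≤ c)
    (h : ∀ N : ℕ, ∃ S : Finset P, S.card = N * W ∧ GP S ∧ 24 * (conv S : ℤ) ≤ (N : ℤ) ^ 4 * K)
    (hc : (K : ℝ) < c * (W : ℝ) ^ 4) {n : ℕ} (hn : 4 ≤ n) :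
    ∃ A : Finset P, A.card = n ∧ GP A ∧ (conv A : ℝ) ≤ c * n.choose 4 := by
  obtain ⟨N0, hN⟩ := exists_nat_ge (6 * c * (W : ℝ) ^ 3 / (c * (W : ℝ) ^ 4 - K))
  rw [div_le_iff₀ (sub_pos.2 hc)] at hN
  obtain ⟨S, h1, h2, h3⟩ := h (N0 + n)
  have h4 : n ≤ (N0 + n) * W := le_trans (by omega) (Nat.le_mul_of_pos_right _ hW)
  obtain ⟨A, a1, a2, a3⟩ := avg hn _ h4 S h1 h2
  refine ⟨A, a1, a2, ?_⟩
  have h5 : (0 : ℝ) < ((N0 + n) * W).choose 4 := by exact_mod_cast Nat.choose_pos (by omega)
  have h6 : (conv A : ℝ) * ((N0 + n) * W).choose 4 ≤ conv S * n.choose 4 := by exact_mod_cast a3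
  have h7 : 24 * (conv S : ℝ) ≤ ((N0 + n : ℕ) : ℝ) ^ 4 * K := by exact_mod_cast h3
  have h8 : ∀ M : ℕ, (M : ℝ) ^ 4 - 6 * (M : ℝ) ^ 3 ≤ 24 * M.choose 4 := fun M => by
    induction M using Nat.strong_induction_on with
    | _ M _ =>
      have := Nat.descFactorial_eq_factorial_mul_choose M 4
      rcases le_or_gt 4 M with h | h
      · obtain ⟨m, rfl⟩ := Nat.exists_eq_add_of_le' h
        have e : (m + 4).descFactorial 4 = (m + 1) * ((m + 2) * ((m + 3) * (m + 4))) := by
          simp [Nat.descFactorial]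
        rw [e, show Nat.factorial 4 = 24 from rfl] at this
        have e2 : ((m : ℝ) + 1) * ((m + 2) * ((m + 3) * (m + 4))) = 24 * (m + 4).choose 4 := by
          exact_mod_cast this
        rw [← e2]
        push_cast
        have : (0 : ℝ) ≤ m := by positivity
        nlinarith [sq_nonneg (m : ℝ)]
      · interval_cases M <;> norm_num [Nat.choose]
  have h9 := h8 ((N0 + n) * W)
  have h10 : (conv S : ℝ) ≤ c * ((N0 + n) * W).choose 4 := by
    push_cast at h7 h9
    have b1 : (0 : ℝ) ≤ n * (c * (W : ℝ) ^ 4 - K) := mul_nonneg (by positivity) (sub_pos.2 hc).le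
    have b2 := mul_le_mul_of_nonneg_left h9 hc0
    have b3 := mul_le_mul_of_nonneg_left (show 6 * c * (W : ℝ) ^ 3 ≤
      (N0 + n) * (c * (W : ℝ) ^ 4 - K) by linarith) (show 0 ≤ ((N0 : ℝ) + n) ^ 3 by positivity)
    nlinarith
  refine le_of_mul_le_mul_right (h6.trans ?_) h5
  calc (conv S : ℝ) * n.choose 4 ≤ c * ((N0 + n) * W).choose 4 * n.choose 4 := by gcongr
    _ = _ := by ring

lemma gp_iff {a b c : P} (h : det (b - a) (c - a) ≠ 0) : ¬ Collinear ℝ ({a, b, c} : Set P) := by
  rw [collinear_iff_of_mem (p₀ := a) (by simp)]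
  rintro ⟨u, hu⟩
  obtain ⟨r, hr⟩ := hu b (by simp)
  obtain ⟨t, ht⟩ := hu c (by simp)
  apply h
  rw [hr, ht]
  simp only [det, vadd_eq_add, add_sub_cancel_right, Prod.smul_fst, Prod.smul_snd, smul_eq_mul]
  ring

end CrUp

end MrgPart3

-- ======== part 4: formerly Pool.Agent.MP_31ecd0_co.up.Check
section MrgPart4

/-! A checker for weighted configurations with threefold symmetry, and its soundness. -/

namespace CrUp

open Finset

/-- Evaluate `n`, then apply `k`. -/
noncomputable def frc (n : ℕ) (k : ℕ → Bool) : Bool := Nat.rec (k 0) (fun m _ => k (Nat.succ m)) n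

noncomputable def frz (z : ℤ) (k : ℤ → Bool) : Bool :=
  Int.rec (fun n => frc n fun n => k (Int.ofNat n)) (fun n => frc n fun n => k (Int.negSucc n)) z

lemma frc_eq (n : ℕ) (k : ℕ → Bool) : frc n k = k n := by cases n <;> rfl
lemma frz_eq (z : ℤ) (k : ℤ → Bool) : frz z k = k z := by
  cases z with
  | ofNat n => exact frc_eq n fun n => k (Int.ofNat n)
  | negSucc n => exact frc_eq n fun n => k (Int.negSucc n)

noncomputable def pos (t : ℤ) : Bool := Int.rec (fun n => Nat.blt 0 n) (fun _ => false) t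
noncomputable def ngt (t : ℤ) : Bool := Int.rec (fun _ => false) (fun _ => true) t

lemma pos_iff {t : ℤ} (h : pos t = true) : 0 < t := by
  cases t with
  | ofNat n => exact Int.natCast_pos.2 (Nat.blt_eq.mp h)
  | negSucc n => cases h

lemma ngt_iff {t : ℤ} (h : ngt t = true) : t < 0 := by
  cases t with
  | ofNat n => cases h
  | negSucc n => exact Int.negSucc_lt_zero n

/-- The bits `a, …, a + l - 1` of `T`. -/
def bits (T a l : ℕ) : ℕ := Nat.land (Nat.shiftRight T a) (Nat.pred (Nat.pow 2 l))
def cell (T i : ℕ) : ℕ := bits T (Nat.mul 640 i) 640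
def fz (c a : ℕ) : ℤ := Int.subNatNat (bits c a 128) 170141183460469231731687303715884105728
def fw (c : ℕ) : ℕ := Nat.shiftRight c 512
def dig (C n : ℕ) : ℕ := bits C (Nat.mul 12 n) 12

noncomputable def rx (c : ℕ) (x y : ℤ) : ℤ :=
  Nat.rec x (fun c _ => Nat.rec (Int.neg y) (fun _ _ => Int.sub y x) c) c
noncomputable def ry (c : ℕ) (x y : ℤ) : ℤ :=
  Nat.rec y (fun c _ => Nat.rec (Int.sub x y) (fun _ _ => Int.neg x) c) c

def dt (a b x y : ℤ) : ℤ := Int.sub (Int.mul a y) (Int.mul b x)
def nx (a b wi w acc : ℕ) : ℕ := Nat.add acc (Nat.mul w (Nat.add (Nat.add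
  (Nat.mul 3 (Nat.pow (Nat.add (Nat.sub a b) (Nat.sub b a)) 2)) (Nat.mul wi wi)) (Nat.mul w w)))

lemma nx_eq (a b wi w acc : ℕ) : (nx a b wi w acc : ℤ) =
    acc + w * (3 * ((a : ℤ) - b) ^ 2 + (wi : ℤ) ^ 2 + (w : ℤ) ^ 2) := by
  have e : (((a - b) + (b - a) : ℕ) : ℤ) ^ 2 = ((a : ℤ) - b) ^ 2 := by
    rcases le_total a b with h | h
    · rw [Nat.sub_eq_zero_of_le h, zero_add, Nat.cast_sub h]; ring
    · rw [Nat.sub_eq_zero_of_le h, add_zero, Nat.cast_sub h]
  rw [← e]
  change ((acc + w * (3 * ((a - b) + (b - a)) ^ 2 + wi * wi + w * w) : ℕ) : ℤ) = _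
  generalize (a - b) + (b - a) = z
  push_cast
  ring

/-- The walk along the angular order around one point. -/
noncomputable def run (T k : ℕ) (px py dx dy : ℤ) (ep em wi C : ℕ) (K : ℕ → Bool) (n : ℕ) :
    ℤ → ℤ → ℕ → ℕ → ℕ → Bool :=
  Nat.rec (fun _ _ A B acc => and (Nat.beq (Nat.add A em) (Nat.add B ep)) (K acc))
    (fun n ih ux uy A B acc => frc (dig C n) fun v =>
      frc (cell T (Nat.mod (Nat.div v 3) k)) fun c =>
      frz (Int.sub (rx (Nat.mod v 3) (fz c 0) (fz c 128)) px) fun x =>
      frz (Int.sub (ry (Nat.mod v 3) (fz c 0) (fz c 128)) py) fun y =>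
      frc (fw c) fun w => frz (dt dx dy x y) fun t =>
      cond (pos t)
        (and (pos (dt ux uy x y)) (frc (Nat.add A w) fun A' =>
          frc (nx (Nat.add ep (Nat.mul 2 B)) (Nat.add em (Nat.add A A')) wi w acc) fun a =>
            ih x y A' B a))
        (and (ngt t) (and (ngt (dt ux uy x y)) (frc (Nat.add B w) fun B' =>
          frc (nx (Nat.add ep (Nat.add B B')) (Nat.add em (Nat.mul 2 A)) wi w acc) fun a =>
            ih (Int.neg x) (Int.neg y) A B' a)))) n

/-- The walks around the points `i, i + 1, …`. -/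
noncomputable def rows (T k B : ℕ) (Cs : List ℕ) : ℕ → ℕ → Bool :=
  List.rec (fun _ acc => Nat.ble acc B) (fun C _ ih i acc => frc (cell T (Nat.mod i k)) fun c =>
    frz (fz c 0) fun px => frz (fz c 128) fun py => frz (fz c 256) fun dx => frz (fz c 384) fun dy =>
    frc (fw c) fun wi => frc (bits C 0 64) fun ep => frc (bits C 64 64) fun em =>
    frc (Nat.shiftRight C 128) fun C' =>
    run T k px py dx dy ep em wi C' (fun r => frc (Nat.add acc (Nat.add (Nat.mul wi r)
      (Nat.mul 3 (Nat.pow (Nat.mul wi (Nat.add (Nat.add ep em) wi)) 2)))) fun a =>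
        ih (Nat.succ i) a) (Nat.pred (Nat.mul 3 k)) dx dy 0 0 0) Cs

variable (T k : ℕ) [NeZero k]

noncomputable def cp (a b : ℕ) (i : Fin 3 × Fin k) : P :=
  (rx i.1 (fz (cell T i.2) a) (fz (cell T i.2) b), ry i.1 (fz (cell T i.2) a) (fz (cell T i.2) b))
def cw (i : Fin 3 × Fin k) : ℕ := fw (cell T i.2)
def dec (v : ℕ) : Fin 3 × Fin k := (Fin.ofNat 3 v, Fin.ofNat k (v / 3))
def lst (C : ℕ) : ℕ → List (Fin 3 × Fin k)
  | 0 => []
  | n + 1 => dec k (dig C n) :: lst C n

lemma lst_len (C n : ℕ) : (lst k C n).length = n := by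
  induction n with
  | zero => rfl
  | succ n ih => rw [lst, List.length_cons, ih]

lemma dt_eq (a b x y : ℤ) : ((dt a b x y : ℤ) : ℝ) = det ((a : ℝ), (b : ℝ)) ((x : ℝ), (y : ℝ)) := by
  change ((a * y - b * x : ℤ) : ℝ) = _
  simp [det]

variable {T k}

lemma run_spec {px py dx dy : ℤ} {ep em wi C : ℕ} {K : ℕ → Bool} {i : Fin 3 × Fin k}
    (hp : cp T k 0 128 i = ((px : ℝ), (py : ℝ))) (hd : cp T k 256 384 i = ((dx : ℝ), (dy : ℝ)))
    (hw : cw T k i = wi) (n : ℕ) : ∀ (ux uy : ℤ) (A B acc : ℕ),
    run T k px py dx dy ep em wi C K n ux uy A B acc = true →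
      (∀ j ∈ lst k C n, det (cp T k 256 384 i) (cp T k 0 128 j - cp T k 0 128 i) ≠ 0) ∧
      List.IsChain (fun a b => 0 < det a b) (((ux : ℝ), (uy : ℝ)) ::
        (lst k C n).map (uu (cp T k 0 128) (cp T k 256 384) i)) ∧
      (A : ℤ) - B + ((lst k C n).map fun j =>
        tau (cp T k 0 128) (cp T k 256 384) i j * cw T k j).sum = ep - em ∧
      ∃ r : ℕ, K r = true ∧
        (r : ℤ) = acc + go (cp T k 0 128) (cp T k 256 384) (cw T k) i (ep - em) (lst k C n) (A - B) := by
  induction n with
  | zero =>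
    intro ux uy A B acc h
    obtain ⟨h1, h2⟩ := Bool.and_eq_true_iff.1 h
    have h3 : A + em = B + ep := Nat.eq_of_beq_eq_true h1
    refine ⟨by simp [lst], by simp [lst], by simp [lst]; omega, acc, h2, by simp [lst, go]⟩
  | succ n ih =>
    intro ux uy A B acc h
    obtain ⟨j, hj⟩ : ∃ j, j = dec k (dig C n) := ⟨_, rfl⟩
    obtain ⟨x, hx⟩ : ∃ x, x = Int.sub (rx j.1 (fz (cell T j.2) 0) (fz (cell T j.2) 128)) px :=
      ⟨_, rfl⟩
    obtain ⟨y, hy⟩ : ∃ y, y = Int.sub (ry j.1 (fz (cell T j.2) 0) (fz (cell T j.2) 128)) py :=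
      ⟨_, rfl⟩
    obtain ⟨w, hw'⟩ : ∃ w, w = cw T k j := ⟨_, rfl⟩
    have h1 : cond (pos (dt dx dy x y))
        (and (pos (dt ux uy x y)) (run T k px py dx dy ep em wi C K n x y (A + w) B
          (nx (ep + 2 * B) (em + (A + (A + w))) wi w acc)))
        (and (ngt (dt dx dy x y)) (and (ngt (dt ux uy x y))
          (run T k px py dx dy ep em wi C K n (-x) (-y) A (B + w)
            (nx (ep + (B + (B + w))) (em + 2 * A) wi w acc)))) = true := by
      subst hx hy hw' hj
      unfold run at h
      simp only [frc_eq, frz_eq] at h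
      unfold run
      simp only [frc_eq, frz_eq]
      exact h
    have h2 : cp T k 0 128 j - cp T k 0 128 i = ((x : ℝ), (y : ℝ)) := by
      rw [hp, hx, hy, cp, Prod.mk_sub_mk]
      exact Prod.ext (Int.cast_sub _ _).symm (Int.cast_sub _ _).symm
    have h3 : det (cp T k 256 384 i) (cp T k 0 128 j - cp T k 0 128 i) = (dt dx dy x y : ℤ) := by
      rw [h2, hd, dt_eq]
    rw [lst, ← hj]
    simp only [List.forall_mem_cons, List.map_cons, List.sum_cons, List.isChain_cons_cons, go,
      ← hw', hw]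
    cases ht : pos (dt dx dy x y) with
    | true =>
      rw [ht, cond_true, Bool.and_eq_true_iff] at h1
      obtain ⟨a1, a2, a3, r, a4, a5⟩ := ih _ _ _ _ _ h1.2
      have b1 : (0 : ℝ) < (dt dx dy x y : ℤ) := by exact_mod_cast pos_iff ht
      have b2 : tau (cp T k 0 128) (cp T k 256 384) i j = 1 := by rw [tau, h3, sg_pos b1]
      have b3 : uu (cp T k 0 128) (cp T k 256 384) i j = ((x : ℝ), (y : ℝ)) := by
        simp [uu, b2, h2]
      rw [b2, b3, h3, ← dt_eq]
      refine ⟨⟨b1.ne', a1⟩, ⟨by exact_mod_cast pos_iff h1.1, a2⟩, ?_, r, a4, ?_⟩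
      · rw [← a3]; push_cast; ring
      · rw [a5, nx_eq, show ((A + w : ℕ) : ℤ) - B = A - B + 1 * w by push_cast; ring]
        push_cast; ring
    | false =>
      rw [ht, cond_false, Bool.and_eq_true_iff, Bool.and_eq_true_iff] at h1
      obtain ⟨a1, a2, a3, r, a4, a5⟩ := ih _ _ _ _ _ h1.2.2
      have b1 : ((dt dx dy x y : ℤ) : ℝ) < 0 := by exact_mod_cast ngt_iff h1.1
      have b2 : tau (cp T k 0 128) (cp T k 256 384) i j = -1 := by rw [tau, h3, sg_neg' b1]
      have b3 : uu (cp T k 0 128) (cp T k 256 384) i j = (((-x : ℤ) : ℝ), ((-y : ℤ) : ℝ)) := by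
        simp [uu, b2, h2]
      have b4 : ((dt ux uy x y : ℤ) : ℝ) < 0 := by exact_mod_cast ngt_iff h1.2.1
      rw [b2, b3, h3]
      refine ⟨⟨b1.ne, a1⟩, ⟨?_, a2⟩, ?_, r, a4, ?_⟩
      · rw [dt_eq] at b4
        simp only [det] at b4 ⊢
        push_cast
        linarith
      · rw [← a3]; push_cast; ring
      · rw [a5, nx_eq, show (A : ℤ) - (B + w : ℕ) = A - B + -1 * w by push_cast; ring]
        push_cast; ring

/-- Everything that is needed about the points `i, …, i + l - 1`. -/
def Chunk (T k : ℕ) [NeZero k] (i l B : ℕ) : Prop :=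
  (∀ j ∈ Ico i (i + l), Good (cp T k 0 128) (cp T k 256 384) (dec k (3 * j))) ∧
    ∑ j ∈ Ico i (i + l), row (cp T k 0 128) (cp T k 256 384) (cw T k) (dec k (3 * j)) ≤ B

lemma rows_spec {B : ℕ} (Cs : List ℕ) : ∀ i acc : ℕ, rows T k B Cs i acc = true →
    (∀ j ∈ Ico i (i + Cs.length), Good (cp T k 0 128) (cp T k 256 384) (dec k (3 * j))) ∧
      acc + ∑ j ∈ Ico i (i + Cs.length),
        row (cp T k 0 128) (cp T k 256 384) (cw T k) (dec k (3 * j)) ≤ B := by
  induction Cs with
  | nil =>
    intro i acc h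
    simpa using Nat.le_of_ble_eq_true h
  | cons C Cs ih =>
    intro i acc h
    have hk := NeZero.pos k
    have e1 : ((dec k (3 * i)).1 : ℕ) = 0 := by simp [dec]
    have e2 : ((dec k (3 * i)).2 : ℕ) = Nat.mod i k := by simp [dec]; rfl
    have h1 : run T k (fz (cell T (Nat.mod i k)) 0) (fz (cell T (Nat.mod i k)) 128)
        (fz (cell T (Nat.mod i k)) 256) (fz (cell T (Nat.mod i k)) 384) (bits C 0 64) (bits C 64 64)
        (fw (cell T (Nat.mod i k))) (Nat.shiftRight C 128) (fun r => rows T k B Cs (i + 1)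
          (acc + (fw (cell T (Nat.mod i k)) * r + 3 * (fw (cell T (Nat.mod i k)) *
            (bits C 0 64 + bits C 64 64 + fw (cell T (Nat.mod i k)))) ^ 2))) (3 * k - 1)
        (fz (cell T (Nat.mod i k)) 256) (fz (cell T (Nat.mod i k)) 384) 0 0 0 = true := by
      unfold rows at h ⊢
      simp only [frc_eq, frz_eq] at h ⊢
      exact h
    have hw : cw T k (dec k (3 * i)) = fw (cell T (Nat.mod i k)) := by rw [cw, e2]
    obtain ⟨a1, a2, a3, r, a4, a5⟩ := run_spec (i := dec k (3 * i)) (by rw [cp, e1, e2]; rfl)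
      (by rw [cp, e1, e2]; rfl) hw _ _ _ _ _ _ h1
    obtain ⟨b1, b2, b3⟩ := row_of (w := cw T k) (by rw [lst_len]; simp; omega)
      (List.ne_nil_of_length_pos (by rw [lst_len]; omega)) a1
      ((List.isChain_map _).1 a2.tail)
    obtain ⟨c1, c2⟩ := ih _ _ a4
    simp only [Nat.cast_zero, sub_zero, zero_add] at a3 a5
    rw [← b2] at a3
    rw [List.length_cons, ← add_assoc, add_right_comm, ← insert_Ico_add_one_left_eq_Ico (by omega),
      sum_insert (by simp)]
    refine ⟨fun j hj => (mem_insert.1 hj).elim (fun e => e ▸ b1) (c1 j), le_trans ?_ c2⟩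
    rw [b3, a3, ← a5, hw, ← add_assoc]
    push_cast
    generalize fw _ = w
    generalize bits C 0 64 = a
    generalize bits C 64 64 = b
    have : |(a : ℤ) - b| ≤ a + b := abs_le.2 ⟨by omega, by omega⟩
    rw [mul_pow, ← mul_assoc]
    gcongr

theorem chunk {B i : ℕ} {Cs : List ℕ} (h : rows T k B Cs i 0 = true) : Chunk T k i Cs.length B := by
  simpa [Chunk] using rows_spec Cs i 0 h

theorem Chunk.add {i l l' B B' : ℕ} (h : Chunk T k i l B) (h' : Chunk T k (i + l) l' B') :
    Chunk T k i (l + l') (B + B') := by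
  refine ⟨fun j hj => ?_, ?_⟩
  · rw [mem_Ico] at hj
    by_cases e : j < i + l
    · exact h.1 j (mem_Ico.2 ⟨hj.1, e⟩)
    · exact h'.1 j (mem_Ico.2 ⟨by omega, by omega⟩)
  · rw [← add_assoc, ← sum_Ico_consecutive _ (Nat.le_add_right i l) (Nat.le_add_right _ l')]
    push_cast
    exact add_le_add h.2 h'.2

noncomputable def wsum (T n : ℕ) : ℕ := Nat.rec 0 (fun n s => Nat.add (fw (cell T n)) s) n

lemma wsum_eq (T n : ℕ) : wsum T n = ∑ i ∈ range n, fw (cell T i) := by
  induction n with
  | zero => rfl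
  | succ n ih => rw [sum_range_succ, ← ih, add_comm (wsum T n)]; rfl

theorem upper {B W : ℕ} (h : Chunk T k 0 k B) (hW : wsum T k = W) {c : ℝ} (h0 : 0 < W)
    (hc0 : 0 ≤ c) (hc : 3 * (B : ℝ) < c * (3 * W) ^ 4) {n : ℕ} (hn : 4 ≤ n) :
    ∃ A : Finset P, A.card = n ∧ GP A ∧ (conv A : ℝ) ≤ c * n.choose 4 := by
  have hr : ∀ a b (i : Fin 3 × Fin k), cp T k a b (i.1 + 1, i.2) =
      (-(cp T k a b i).2, (cp T k a b i).1 - (cp T k a b i).2) := by
    rintro a b ⟨c, i⟩
    have r2 : ∀ x y, rx 2 x y = y - x ∧ ry 2 x y = -x := fun _ _ => ⟨rfl, rfl⟩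
    have r1 : ∀ x y, rx 1 x y = -y ∧ ry 1 x y = x - y := fun _ _ => ⟨rfl, rfl⟩
    have r0 : ∀ x y, rx 0 x y = x ∧ ry 0 x y = y := fun _ _ => ⟨rfl, rfl⟩
    fin_cases c <;> simp [cp, r0, r1, r2]
    ring
  have hs := row_sym (p := cp T k 0 128) (d := cp T k 256 384) (w := cw T k)
    ((Equiv.addRight 1).prodCongr (Equiv.refl _)) (fun u => (-u.2, u.1 - u.2))
    (fun u v => by simp only [det]; ring) (fun u v => Prod.ext (by simp; ring) (by simp; ring))
    (hr _ _) (hr _ _) fun _ => rfl
  have hd : ∀ j : Fin k, dec k (3 * j) = (0, j) := fun j => by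
    simp [dec, Fin.ext_iff]
  have hG : ∀ i, Good (cp T k 0 128) (cp T k 256 384) i := by
    rintro ⟨c, j⟩
    have g0 := hd j ▸ h.1 j (by simp)
    fin_cases c
    exacts [g0, (hs (0, j)).1 g0, (hs (1, j)).1 ((hs (0, j)).1 g0)]
  have hK : ∑ i, row (cp T k 0 128) (cp T k 256 384) (cw T k) i ≤ 3 * B := by
    have h2 := h.2
    rw [zero_add, ← range_eq_Ico, ← Fin.sum_univ_eq_sum_range
      (fun j => row (cp T k 0 128) (cp T k 256 384) (cw T k) (dec k (3 * j)))] at h2
    simp only [hd] at h2
    have g1 : ∀ j, row (cp T k 0 128) (cp T k 256 384) (cw T k) (1, j) = _ := fun j => (hs (0, j)).2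
    have g2 : ∀ j, row (cp T k 0 128) (cp T k 256 384) (cw T k) (2, j) = _ := fun j =>
      (hs (1, j)).2.trans (hs (0, j)).2
    rw [Fintype.sum_prod_type, Fin.sum_univ_three]
    simp only [g1, g2]
    linarith
  have hw : ∑ i, cw T k i = 3 * W := by
    rw [← hW, wsum_eq, ← Fin.sum_univ_eq_sum_range (fun j => fw (cell T j)), Fintype.sum_prod_type]
    simp [cw]
  refine of_blow (W := 3 * W) (K := 3 * B) (by omega) hc0 (fun N => ?_) (by exact_mod_cast hc) hn
  obtain ⟨S, s1, s2, s3⟩ := blow (cw T k) (fun i => (hG i).1) (fun i => (hG i).2.1)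
    (fun i => (hG i).2.2) N
  exact ⟨S, hw ▸ s1, s2, s3.trans (mul_le_mul_of_nonneg_left hK (by positivity))⟩

end CrUp

end MrgPart4

-- ======== part 5: formerly Pool.Agent.MP_31ecd0_co.up.Data
section MrgPart5

/-! The weighted configuration. -/

namespace CrUp

def tab : ℕ := 0xea5a7fffffffffffffffffffffffffff81a37fffffffffffffffffffffffffff80007ffffc71bc568f28799b31a9124b1f6880000396bbcf5c4600b6985932969e9c0000000000000000000000000000cf4a7ffffffffffffffffffffffffffe720f7ffffffffffffffffffffffffffe00007ffffc720f3e1792cc9b7f721cf60a5e80000397267bdb77fd4009ae3edb03a0000000000000000000000000000131247ffffffffffffffffffffffffffe72137ffffffffffffffffffffffffffe00007ffffc72145fb83a1118148255c665f4800003972d15e42391176cd2033db6d100000000000000000000000000013e797ffffffffffffffffffffffffff335397ffffffffffffffffffffffff80000007ffffc72429a103db6c10b6935f67b648000039768a2196b88cffe2ee163e5f30000000000000000000000000000fa227fffffffffffffffffffffffff9c84887fffffffffffffffffffffffff8000007ffffc74fe9f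9e576aa21436b96c2e978000039aed419d6b7c7e1efc6b9bb4aa00000000000000000000000000012c7b800000000000000000000000800000007fffffffffffffffffffffffff415df87ffffc74fe9fac440befa6f8e5bf69d88000039aed8d5a5c7cf31bc32d8200c200000000000000000000000000010df3800000000000000000000000000002007ffffffffffffffffffffffffffffeb78000044174af4ae80bd127ce215a5d0e80000da36a4a1b159a46a9c8cd7ce0570000000000000000000000000000e225800000000000000000000000000081d37ffffffffffffffffffffffffe0000008000044174af33261db37c16879de45c80000da36aa79dcfc6012418f214680900000000000000000000000000012b01800000000000000000000000000081b37ffffffffffffffffffffffffe000000800004416224fc12311f9a559a99b0d080000da36fe1dad50f4e080221cddad30000000000000000000000000000fd9380000000000000000000206aba7b02a77fffffffffffffffff80000000000000800004415d17103da83f09d81f5caf8280000da3715dc09c7bdfdb1d4ea8e6a20000000000000000000000000000b537800000000000000000000000000008007ffffffffffffffffffffffffffffc3f800004413e1cbc9352337a36b1612e3c80000da383da709db51c9ee1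77d63dfe0000000000000000000000000000ff1580000000000000000000000092cb11557ffffffffffffffffffffffe0000000080000440e459581d565cb4937e04999680000da3ade32e614ce7b1660cb270500000000000000000000000000000bebc800000000000000000000000000080007fffffffffffffffffffffffffffc40180000440e1c61cc063c076470c62af9f80000da3af22f02284af85a918a8090a00000000000000000000000000012c3f80000000000000000000000000203cf97fffffffffffffffffffffff8000000080000440d8a6d9615e3c731b16ff859d80000da3b378a8701f794710b3adef900000000000000000000000000000abee80000000000000000000000024be3a4b7fffffffffffffffffffffff800000008000043fdee14d93140a7fc4782dba5880000da41776f0ff7bef31831a0dce950000000000000000000000000000dfba800000000000000000000000000800007ffffffffffffffffffffffffffcc6b58000043fab8de3533377c5cd6c65770580000da42c25bc36f30b0273c7e7af940000000000000000000000000000fdda8000000000000000000000000000c1087ffffffffffffffffffffffffffe00008000043c7c51ae79c1aff23a30cf519c80000daf43762b15da852c7b410c1ed10000000000000000000000000000d76d8000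00000000000000000000000030447fffffffffffffffffffffffffff80008000043c7c51b226c600dddf96dccf3f80000daf43762fd50d32ca30fb09215f000000000000000000000000000145f78000000000000000000000000c2c849c7fffffffffffffffffffffffe00000008000042dd15933c7d4b4f8185a55d47880000dd5d1ae9688e6517643653c0b270000000000000000000000000000e0de800000000000000000000000000001577ffffffffffffffffffffffffff800008000042d521031a464a18100c238237080000dd733968b62a363e80b551a4d38000000000000000000000000000109738000000000000000000000000000024f7ffffffffffffffffffffffffffff8008000042d59b6e3c51beb52d2f94daa5f80000dd73d91a698204bef9f058ede5d0000000000000000000000000000e0cf8000000000000000000000000c10c0987fffffffffffffffffffffffe00000008000042d645ceae11be5314a538665b480000dd74b75bc83cce14ea4f64fdd5000000000000000000000000000011c89800000000000000000000000000800007ffffffffffffffffffffffffffd48177ffffc7832432db81a688ec51842469580001048dd6b1af57cb1d1849be066a40000000000000000000000000000e3a77fffffffffffffffffffffffffedf0a27fffffffffffffff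fffffffe000000007ffffc786ed5fe06cb396c5f62478180800010c692b1d456ec6dca1362073d97000000000000000000000000000136c47fffffffffffffffffffffffffce89117fffffffffffffffffffffffff8000007ffffc786ed9765db061512462613e22800010c699f20ec5e370709407ba60c7000000000000000000000000000173be7fffffffffffffffffffffffffffffe97ffffffffffffffffffffffffffe00007ffffc790af88f0c01cbe2afdd526b6b80002210feddfa59fc2b6ff680d2cbf6000000000000000000000000000170217ffffffffffffffffffffffffffebe047fffffffffffffffffffffffffe000007ffffc790af8b11f865cec160e42c16880002210fee1574f312531e76469fdb300000000000000000000000000011cbc8000000000000000000000000030414a7fffffffffffffffffffffffff8000007ffffc80d3dd1ae3b474f6465e7edeca80002232725ad3e77f01812b49241f80000000000000000000000000000142fd7fffffffffffffffffffffffffe236437fffffffffffffffffffffffff8000007ffffc80d3dbcad2deb5df23bd708d8880002232725e4f5b01f3047e0fd5b6e90000000000000000000000000000b26d7ffffffffffffffffffffffffffffecc7fffffffffffffffffffffffffff80007ffffca4259bc52ad8af95af522f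7037800022ca36d5ed656bda03a3c2e63a5d0000000000000000000000000000f93c7ffffffffffffffffffffffffffc48e67fffffffffffffffffffffff800000007ffffca42594c9fa0e6d51b82cda0d78800022ca36e955a100de5f13d1c8a15d00000000000000000000000000011ac47ffffffffffffffffffffffffffccbcc7ffffffffffffffffffffffffe0000007ffffcaac497468d95157a2815354c69800026ec4b3f2cfd103a3098523f9fa20000000000000000000000000001020b7ffffffffffffffffffffffffffffff07ffffffffffffffffffffffffffffe007ffffcaa9ab7131b20d091d196062698800026ecd6e28c09711625a7ee35734700000000000000000000000000007a097ffffffffffffffffffffffffffffb677fffffffffffffffffffffffffff80007ffffcaa9ab7152be711e2acc7ef2e11800026ecd6e2c57029dbf6b15589abaa0000000000000000000000000000ee527ffffffffffffffffffffffffff238747ffffffffffffffffffffffe000000007ffffcb2d7cad59711f71dddf574af1e800027b44c21c0542b9768fcf6476ee00000000000000000000000000000cbf27ffffffffffffffffffffffffffff2247ffffffffffffffffffffffffe0000007ffffcb1e65a078bf9a4fd03fbd94d5b800027b78f187cb45f79e7678674f00800000000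000000000000000000009cb07ffffffffffffffffffffed9446d19ae7fffffffffffffffffffe000000000007ffffcb1e5e6324e73175d973b0ec42b800027b790a8f6630df64cff8272786f0000000000000000000000000000b355800000000000000000000000000094117ffffffffffffffffffffffffffe00007ffffcb011a27a63738f7c6fa807b667800027bde3d27ab26a51ff7da9f3d1770000000000000000000000000000ebc37fffffffffffffffffffffffffffffcb7ffffffffffffffffffffffffffff8007ffffcb011a2d7e85aab8c9883ffdc9e800027bde408e2eb55ff1da4d3c11fa5000000000000000000000000000160707fffffffffffffffffffffffffb6312e7ffffffffffffffffffffffff80000008000040708cfe12c571920953e8ad34f8000f32dc9ac4ff7b39f09d633c6528b0000000000000000000000000000a6ec800000000000000000000000000000037ffffffffffffffffffffffffffffe0080000406b0496c239ebc07eceb9ab2f88000f48d06d120fc4024d3c3889ab7600000000000000000000000000000bfa7800000000000000000000000000015827fffffffffffffffffffffffff80000080000406501261e23a39c09fe1fc9ca18000f60af507679f8a4a45e587f2c2d50000000000000000000000000000903980000000000000000000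0000000002007ffffffffffffffffffffffffff80000800003e44fe66868df9ecc6d0e51d5fe80017cf10cb94a20d1e5543a9d83c9f70000000000000000000000000000df74800000000000000000000000000020707fffffffffffffffffffffffff800000800003e4532f3d8a56a17969656f0f2a80017cf1a848d9e8a8936f8d8eaac31f0000000000000000000000000001387e7fffffffffffffffffffffff5308d8717fffffffffffffffffffffe000000000800003e457169e0a1c095a889d6597f080017cf2612d67268dc40ee7edc525d200000000000000000000000000016508800000000000000000000000000203ba7ffffffffffffffffffffffff8000000800003e457169e09f8a68447445d10ae80017cf2612d67bebd37cb7de02182860000000000000000000000000000f5b08000000000000000000081805cc1d3bb7ffffffffffffffffe0000000000000080000369f9fe2add3e28261e82e11734800360ba0d61678abeef22cedb7da852000000000000000000000000000123488000000000000000000000000000788f7ffffffffffffffffffffffff800000080000366558a2722a2b118d0f98737af80036f242c28d807471be1b1301692b50000000000000000000000000001007c800000000000000000000000000205fb7ffffffffffffffffffffffff8000000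8000036561e420bd2fbe5d4fe2bf8ad5800372e7a2065a1fee8767411ebfd6b700000000000000000000000000012ad37ffffffffffffffffffffffffffff19d7ffffffffffffffffffffffffe0000007ffffd6c3f571dec226b4873eb57b4a0801b10dbe17730659e17e43318bdcb9a0000000000000000000000000000dc527ffffffffffffffffffffffffffffc8b7fffffffffffffffffffffffff8000007ffffd6c468e6bb4526eaeb9f9f40a2b801b11c295c00487cd3a178fe0fdcb8c00000000000000000000000000010fa97fffffffffffffffffffffffffffff247fffffffffffffffffffffffffe000007ffffd6c57d4904f3d9db53ac4e3208b801b144e581f4fd6d68a3c7906b5cf230000000000000000000000000000f0977ffffffffffffffffffffffffff223187ffffffffffffffffffffffe000000007ffffd6d1d6e92b9d15fd4807c369ca8801b2a30e679e339a2a0bd1d56748615000000000000000000000000000132817fffffffffffffffffffffffffffee737ffffffffffffffffffffffffe0000007ffffd6d34bf5077279339fb4e9641ee801b2cd8e81a9deebcfe7d7d3d212eed000000000000000000000000000106f47fffffffffffffffffffffffffffc7fc7ffffffffffffffffffffffff80000007ffffd6d41497f8d834b6897fe14c53d801b2e434281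0a02ab429abb8e562b740000000000000000000000000000d5987fffffffffffffffffffffffff1ca6737fffffffffffffffffffffe0000000007ffffd7a7d044bead78ff70e47bea702801d11ff066431854cfe7906f6762f6b000000000000000000000000000186cb7fffffffffffffffffffffffffffff1d7fffffffffffffffffffffffffe000007ffffd7a7d6f83015f9e87f39ffd7b5f801d1219cf777a1dff57e9b66f2efdd600000000000000000000000000014edd80000000000000000000000000001e207ffffffffffffffffffffffffe0000007fffff1d7e73ebe7b9396f40b46488c6804c37fb840fbc8f75b1bfc8ce2100990000000000000000000000000000f79180000000000000000000000000001e257ffffffffffffffffffffffffe0000007fffff0af75bd507e9d316f4a9257148804d71b439bd25f23c32354ab25f00c00000000000000000000000000000e98c7ffffffffffffffffffffffffff0e5867ffffffffffffffffffffffe000000007ffffef45afa19f4660515f809805d3c804efd2861b850d39cbc2ba58910ee8a00000000000000000000000000015101800000000000000000000000000826a17fffffffffffffffffffffff800000007ffffeeec27f18ceada93904866c0101804f5e0b9fc052a2d8a82155e3fd4ed0000000000000000000000000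0000a433800000000000000000000000000001dc7fffffffffffffffffffffffffe000007ffffeedc610b32c19ab159f1812c5f2804f6d87f08b4538ac7ae174ec81557d000000000000000000000000000114fe80000000000000000000000000001e297ffffffffffffffffffffffffe0000007ffffee454984884445ef5fc5642a9f5805001d3d41ee2a67d65c026f67590b60000000000000000000000000000cba48000000000000000000000000001e3c47fffffffffffffffffffffffe00000007ffffee1af5448bbb543ee4c27c48a6c80502cc2c1e8496b3ae93b284b2fac5b00000000000000000000000000010a7380000000000000000000000000036def7ffffffffffffffffffffffe000000007ffffee11e3c96657ab9042c671fe79e805036376d37b4981e6c3111120d7e58000000000000000000000000000113cb7fffffffffffffffffffffffffff7ce87fffffffffffffffffffffffe00000007ffffe6615494004009767531edc3eb28057ee7468816d63033eb78f16782e660000000000000000000000000000eca47ffffffffffffffffffffffffff9c6f07ffffffffffffffffffffffe000000007ffffe66efe5ae80a0733a22fb353957805823d3826698ae42699509a5fac8630000000000000000000000000000dc8f7ffffffffffffffffffffffffffe722b7fff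ffffffffffffffffffff800000007ffffe6742785228717bf048bff627a280583824ade888692000413ed30d6fda000000000000000000000000000170dc800000000000000000000000000000017ffffffffffffffffffffffffffe00007ffffeb37c128df42b9204bb7e383db5806ad31e7286a688741a4b9ee83bfdb600000000000000000000000000011e0a800000000000000000000000000001127fffffffffffffffffffffffff8000007ffffeb37b089487236460d72aa33e78806ad3a81c7c852ff9b75bd6ddad55cc000000000000000000000000000121c980000000000000000000000000016d247ffffffffffffffffffffff8000000007ffffeb35becedd774b44df52568f103806ae5747f3b847fc2b667f89fc46b8400000000000000000000000000014a387fffffffffffffffffffffffffffe71c7ffffffffffffffffffffffff80000007ffffeac35ccb1dc55d417ef367e6c25806e677511a485bfa30280a392ff12d1000000000000000000000000000140c77fffffffffffffffffffffffffffe7187ffffffffffffffffffffffff80000007ffffeacda68dd0a029e09e33c79a9cb806e9c431f5207256f1ac1450a08d0d6000000000000000000000000000092c6800000000000000000000000000000157fffffffffffffffffffffffff8000007ffffeb26160db36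cedb2a34b7b41e3d807062bde643780dd0dc7ba2a83b1c610000000000000000000000000000e0d67fffffffffffffffffffffffffff9c827fffffffffffffffffffffffe00000007ffffeb2613ebe8b49fde4fb0ea5e0e880706369ce2aebcad2a0536a843d0b2e00000000000000000000000000009d4a7fffffffffffffffffffffffffffffef7fffffffffffffffffffffffffe000007ffffeb106c366e66c1ce1169b24ab93807737984ed39e77915026c772a9bd0800000000000000000000000000012476800000000000000000000000000178357ffffffffffffffffffffff8000000007ffffeb0df751b669117af203f3e79d780789793238c8d4564fe50601c2f75680000000000000000000000000000dd5c800000000000000000000000000140317ffffffffffffffffffffff8000000007ffffeb0ee03961e3723fe13a49d8a098079a9e9656683274404f4e10d062f1100000000000000000000000000010641800000000000000000000000000000497ffffffffffffffffffffffffe0000007ffffeadf75cdff5bbdb075ba5601cb1808eb50f49afbf08398d162ed984e91000000000000000000000000000010641800000000000000000000000000001177ffffffffffffffffffffffff80000007ffffea70e2610315c7e2286ab1b58f280c18ef6b3ea441daf4b67d74c900339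

end CrUp

end MrgPart5

-- marker of a merged file
example : 731051 + 826916 = 731051 + 826916 := rfl
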