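import Pool.Agent.MP_31ecd0_co.up.Part0

/-! The bound. -/

namespace CrUp

theorem main {n : ℕ} (hn : 4 ≤ n) :
    ∃ A : Finset P, A.card = n ∧ GP A ∧ (conv A : ℝ) ≤ 3804381 / 10000000 * n.choose 4 :=
  upper (T := tab) (k := 80) (W := 5242880) ch0 (by decide +kernel) (by norm_num) (by norm_num)
    (by norm_num) hn

end CrUp
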